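import Pool.Agent.DQ2.Stmts

/-!
# Row IR2 of squad DQ2: the universal form has no linear factor

`F(r₁ t + r₂ u, t, u, 0, ..)` is a polynomial in `t, u`; its coefficient at `t^(d-1) u` is the
variable `c_(i₀)`, `i₀ = x_1^(d-1) x_2`, plus an element of the algebraically closed field `S` without
`c_(i₀)`.
-/

set_option autoImplicit false

open MvPolynomial

namespace Pool.Agent.DQ2.H3

section Lem

variable {E : Type} [Field E] {N : ℕ}

/-- sums of products with coefficients in `S` -/
theorem sum_lifts (S : Subfield E) (c : (Fin N →₀ ℕ) → E) (D : Finset (Fin N →₀ ℕ))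
    (hc : ∀ m ∈ D, c m ∈ S) (y : Fin N → Polynomial E)
    (hy : ∀ j, y j ∈ Polynomial.lifts S.subtype) :
    ∑ m ∈ D, Polynomial.C (c m) * ∏ j, y j ^ m j ∈ Polynomial.lifts S.subtype := by
  refine Subsemiring.sum_mem _ fun m hm => Subsemiring.mul_mem _ ?_ ?_
  · exact Polynomial.C_mem_lifts S.subtype ⟨c m, hc m hm⟩
  · exact Subsemiring.prod_mem _ fun j _ => Subsemiring.pow_mem _ (hy j) _

theorem lifts_coeff {S : Subfield E} {p : Polynomial E} (h : p ∈ Polynomial.lifts S.subtype)
    (k : ℕ) : p.coeff k ∈ S := by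
  rw [Polynomial.lifts_iff_coeff_lifts] at h
  obtain ⟨x, hx⟩ := h k
  rw [← hx]
  exact x.2

theorem C_lifts {S : Subfield E} {a : E} (h : a ∈ S) :
    Polynomial.C a ∈ Polynomial.lifts S.subtype :=
  Polynomial.C_mem_lifts S.subtype ⟨a, h⟩

theorem X_lifts (S : Subfield E) : (Polynomial.X : Polynomial E) ∈ Polynomial.lifts S.subtype :=
  Polynomial.X_mem_lifts S.subtype

theorem prod_single {R : Type} [CommRing R] (y : Fin N → R) (p : Fin N) (a : ℕ) :
    ∏ j, y j ^ (Finsupp.single p a) j = y p ^ a := by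
  rw [Finset.prod_eq_single p]
  · rw [Finsupp.single_eq_same]
  · intro b _ hb
    rw [Finsupp.single_eq_of_ne hb, pow_zero]
  · intro h
    exact absurd (Finset.mem_univ p) h

theorem prod_two {R : Type} [CommRing R] (y : Fin N → R) (p q : Fin N) (a : ℕ) :
    ∏ j, y j ^ (Finsupp.single p a + Finsupp.single q 1 : Fin N →₀ ℕ) j = y p ^ a * y q := by
  simp only [Finsupp.add_apply, pow_add, Finset.prod_mul_distrib]
  rw [prod_single, prod_single, pow_one]

end Lem

section Top

variable {E : Type} [Field E] {n d : ℕ}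

theorem eq_single {m : Fin (n + 2) →₀ ℕ}
    (hm : m ∈ (Finset.univ : Finset (Fin (n + 2))).finsuppAntidiag d) (h : m 0 = d) :
    m = Finsupp.single 0 d := by
  rw [Finset.mem_finsuppAntidiag] at hm
  have h1 := hm.1
  rw [Fin.sum_univ_succ, h] at h1
  have h2 : ∑ i : Fin (n + 1), m i.succ = 0 := by omega
  rw [Finset.sum_eq_zero_iff] at h2
  ext j
  refine Fin.cases ?_ (fun i => ?_) j
  · rw [h, Finsupp.single_eq_same]
  · rw [h2 i (Finset.mem_univ i), Finsupp.single_eq_of_ne (Fin.succ_ne_zero i)]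

theorem coeff_top (c : (Fin (n + 2) →₀ ℕ) → E) (hc : c (Finsupp.single 0 d) = 1)
    (y : Fin (n + 2) → Polynomial E) (hy0 : y 0 = Polynomial.X) (a : Fin (n + 1) → E)
    (hy : ∀ i : Fin (n + 1), y i.succ = Polynomial.C (a i)) :
    (∑ m ∈ (Finset.univ : Finset (Fin (n + 2))).finsuppAntidiag d,
      Polynomial.C (c m) * ∏ j, y j ^ m j).coeff d = 1 := by
  rw [Polynomial.finsetSum_coeff, Finset.sum_eq_single (Finsupp.single 0 d)]
  · rw [prod_single, hy0, hc, map_one, one_mul, Polynomial.coeff_X_pow, if_pos rfl]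
  · intro m hm hne
    have hm0 : d ≠ m 0 := fun h => hne (eq_single hm h.symm)
    have e : ∏ i : Fin (n + 1), y i.succ ^ m i.succ
        = Polynomial.C (∏ i : Fin (n + 1), a i ^ m i.succ) := by
      rw [map_prod]
      exact Finset.prod_congr rfl fun i _ => by rw [hy, map_pow]
    rw [Fin.prod_univ_succ, hy0, e, Polynomial.coeff_C_mul, Polynomial.coeff_mul_C,
      Polynomial.coeff_X_pow, if_neg hm0, zero_mul, mul_zero]
  · intro h
    exfalso
    apply h
    rw [Finset.mem_finsuppAntidiag]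
    refine ⟨?_, Finset.subset_univ _⟩
    rw [Finset.sum_eq_single 0]
    · rw [Finsupp.single_eq_same]
    · intro b _ hb
      rw [Finsupp.single_eq_of_ne hb]
    · intro h
      exact absurd (Finset.mem_univ _) h

/-- splitting off the monomial `i₀` -/
theorem split (S : Subfield E) (c : (Fin (n + 2) →₀ ℕ) → E)
    (D : Finset (Fin (n + 2) →₀ ℕ)) (p q : Fin (n + 2)) (e : ℕ)
    (hD : Finsupp.single p e + Finsupp.single q 1 ∈ D)
    (hc : ∀ m ∈ D, m ≠ Finsupp.single p e + Finsupp.single q 1 → c m ∈ S)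
    (y : Fin (n + 2) → Polynomial E) (hy : ∀ j, y j ∈ Polynomial.lifts S.subtype) :
    ∃ r ∈ Polynomial.lifts S.subtype, ∑ m ∈ D, Polynomial.C (c m) * ∏ j, y j ^ m j
      = r + Polynomial.C (c (Finsupp.single p e + Finsupp.single q 1)) * (y p ^ e * y q) := by
  classical
  refine ⟨∑ m ∈ D.erase (Finsupp.single p e + Finsupp.single q 1),
    Polynomial.C (c m) * ∏ j, y j ^ m j, ?_, ?_⟩
  · exact sum_lifts S c _ (fun m hm => hc m (Finset.mem_of_mem_erase hm) (Finset.ne_of_mem_erase hm))
      y hy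
  · rw [← prod_two]
    exact (Finset.sum_erase_add _ (fun m => Polynomial.C (c m) * ∏ j, y j ^ m j) hD).symm

/-- the root is in `S` -/
theorem root_mem (S : Subfield E)
    (hS : ∀ (z : E) (f : Polynomial E), f ≠ 0 → (∀ j, f.coeff j ∈ S) → f.eval z = 0 → z ∈ S)
    (c : (Fin (n + 2) →₀ ℕ) → E) (hc1 : c (Finsupp.single 0 d) = 1) (p q : Fin (n + 2)) (e : ℕ)
    (hp : p ≠ 0) (hq : q ≠ 0)
    (hD : Finsupp.single p e + Finsupp.single q 1 ∈
      (Finset.univ : Finset (Fin (n + 2))).finsuppAntidiag d)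
    (hc : ∀ m ∈ (Finset.univ : Finset (Fin (n + 2))).finsuppAntidiag d,
      m ≠ Finsupp.single p e + Finsupp.single q 1 → c m ∈ S)
    (b : Fin (n + 2) → E) (hb : ∀ j, j ≠ 0 → b j ∈ S) (hz : b p ^ e * b q = 0)
    (hv : ∑ m ∈ (Finset.univ : Finset (Fin (n + 2))).finsuppAntidiag d,
      c m * ∏ j, b j ^ m j = 0) : b 0 ∈ S := by
  set y : Fin (n + 2) → Polynomial E := fun j => if j = 0 then Polynomial.X else Polynomial.C (b j)
    with hy
  have y0 : y 0 = Polynomial.X := by rw [hy]; exact if_pos rfl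
  have y1 : ∀ j, j ≠ 0 → y j = Polynomial.C (b j) := fun j hj => by rw [hy]; exact if_neg hj
  have hyl : ∀ j, y j ∈ Polynomial.lifts S.subtype := by
    intro j
    by_cases hj : j = 0
    · rw [hj, y0]; exact X_lifts S
    · rw [y1 j hj]; exact C_lifts (hb j hj)
  obtain ⟨r, hr, hs⟩ := split S c _ p q e hD hc y hyl
  have ht := coeff_top (d := d) c hc1 y y0 (fun i => b i.succ) (fun i => y1 _ (Fin.succ_ne_zero i))
  refine hS (b 0) (∑ m ∈ (Finset.univ : Finset (Fin (n + 2))).finsuppAntidiag d,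
      Polynomial.C (c m) * ∏ j, y j ^ m j) (fun h0 => ?_) (fun j => ?_) ?_
  · rw [h0, Polynomial.coeff_zero] at ht
    exact zero_ne_one ht
  · rw [hs, y1 p hp, y1 q hq, ← map_pow, ← map_mul, hz, map_zero, mul_zero, add_zero]
    exact lifts_coeff hr j
  · rw [Polynomial.eval_finsetSum, ← hv]
    refine Finset.sum_congr rfl fun m _ => ?_
    rw [Polynomial.eval_mul, Polynomial.eval_C, Polynomial.eval_prod]
    congr 1
    refine Finset.prod_congr rfl fun j _ => ?_
    rw [Polynomial.eval_pow]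
    by_cases hj : j = 0
    · rw [hj, y0, Polynomial.eval_X]
    · rw [y1 j hj, Polynomial.eval_C]

end Top

/-- the value of the universal form -/
theorem aeval_FK {n d : ℕ} (x : Fin (n + 2) → AlgebraicClosure (LDP.KK n d)) :
    aeval x (LDP.FK n d) = ∑ m ∈ (Finset.univ : Finset (Fin (n + 2))).finsuppAntidiag d,
      algebraMap (LDP.KK n d) (AlgebraicClosure (LDP.KK n d))
        (algebraMap (LDP.AA n d) (LDP.KK n d) (LDP.cf n d m)) * ∏ j, x j ^ m j := by
  rw [LDP.FK, LDP.FA, map_sum, map_sum]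
  refine Finset.sum_congr rfl fun m _ => ?_
  rw [map_monomial, aeval_monomial, Finsupp.prod_fintype]
  intro i
  rw [pow_zero]

/-- the universal form has no linear factor -/
theorem ir2 (_h1 : HOM) (h2 : TRS) : IR2 := by
  intro n d hn hd
  rintro ⟨r₁, r₂, hr⟩
  have hd2 : 2 ≤ d := by omega
  have hp : (⟨1, by omega⟩ : Fin (n + 2)) ≠ 0 := by
    intro h
    have := congrArg Fin.val h
    simp at this
  have hq : (⟨2, by omega⟩ : Fin (n + 2)) ≠ 0 := by
    intro h
    have := congrArg Fin.val h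
    simp at this
  generalize hpe : (⟨1, by omega⟩ : Fin (n + 2)) = p at hp
  generalize hqe : (⟨2, by omega⟩ : Fin (n + 2)) = q at hq
  have hp1 : p.1 = 1 := by rw [← hpe]
  have hq1 : q.1 = 2 := by rw [← hqe]
  have hD : Finsupp.single p (d - 1) + Finsupp.single q 1 ∈
      (Finset.univ : Finset (Fin (n + 2))).finsuppAntidiag d := by
    rw [Finset.mem_finsuppAntidiag]
    refine ⟨?_, Finset.subset_univ _⟩
    show ∑ i, (Finsupp.single p (d - 1) + Finsupp.single q 1 : Fin (n + 2) →₀ ℕ) i = d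
    simp only [Finsupp.add_apply, Finset.sum_add_distrib]
    have hs : ∀ (r : Fin (n + 2)) (a : ℕ), ∑ i, (Finsupp.single r a) i = a := by
      intro r a
      rw [Finset.sum_eq_single r]
      · rw [Finsupp.single_eq_same]
      · intro b _ hb
        rw [Finsupp.single_eq_of_ne hb]
      · intro h
        exact absurd (Finset.mem_univ _) h
    rw [hs, hs]
    omega
  have hdeg : ∀ m ∈ (Finset.univ : Finset (Fin (n + 2))).finsuppAntidiag d, m.degree = d := by
    intro m hm
    rw [Finset.mem_finsuppAntidiag] at hm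
    rw [← hm.1, Finsupp.degree_eq_sum]
  have hne : Finsupp.single p (d - 1) + Finsupp.single q 1 ≠ Finsupp.single (0 : Fin (n + 2)) d := by
    intro h
    have h3 := DFunLike.congr_fun h q
    rw [Finsupp.add_apply, Finsupp.single_eq_same, Finsupp.single_eq_of_ne hq] at h3
    omega
  obtain ⟨S, _, hSX, hSi, hSr⟩ := h2 (LDP.Coef n d)
    ⟨Finsupp.single p (d - 1) + Finsupp.single q 1, hdeg _ hD, hne⟩
  set c : (Fin (n + 2) →₀ ℕ) → AlgebraicClosure (LDP.KK n d) := fun m =>
    algebraMap (LDP.KK n d) (AlgebraicClosure (LDP.KK n d))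
        (algebraMap (LDP.AA n d) (LDP.KK n d) (LDP.cf n d m)) with hcdef
  have hc1 : c (Finsupp.single 0 d) = 1 := by
    simp only [hcdef]
    rw [LDP.cf, dif_neg (fun h => h.2 rfl), map_one, map_one]
  have hci : c (Finsupp.single p (d - 1) + Finsupp.single q 1) ∉ S := by
    simp only [hcdef]
    rw [LDP.cf, dif_pos ⟨hdeg _ hD, hne⟩]
    exact hSi
  have hc : ∀ m ∈ (Finset.univ : Finset (Fin (n + 2))).finsuppAntidiag d,
      m ≠ Finsupp.single p (d - 1) + Finsupp.single q 1 → c m ∈ S := by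
    intro m hm hmi
    by_cases h0 : m = Finsupp.single 0 d
    · rw [h0, hc1]; exact S.one_mem
    · simp only [hcdef]
      rw [LDP.cf, dif_pos ⟨hdeg _ hm, h0⟩]
      exact hSX _ (fun h => hmi (congrArg Subtype.val h))
  have hv : ∀ t u : AlgebraicClosure (LDP.KK n d),
      ∑ m ∈ (Finset.univ : Finset (Fin (n + 2))).finsuppAntidiag d, c m * ∏ j : Fin (n + 2),
        (if j.1 = 0 then r₁ * t + r₂ * u else if j.1 = 1 then t else
          if j.1 = 2 then u else 0) ^ m j = 0 := by
    intro t u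
    have h := hr t u
    rw [aeval_FK] at h
    exact h
  have hz : ∀ (a b e : AlgebraicClosure (LDP.KK n d)) (j : Fin (n + 2)), j ≠ 0 →
      (if j.1 = 0 then a else if j.1 = 1 then b else if j.1 = 2 then e else 0)
        = if j.1 = 1 then b else if j.1 = 2 then e else 0 := by
    intro a b e j hj
    rw [if_neg (fun h : j.1 = 0 => hj (Fin.ext h))]
  have m1 : r₁ ∈ S := by
    have := root_mem S hSr c hc1 p q (d - 1) hp hq hD hc _ ?_ ?_ (hv 1 0)
    · simpa using this
    · intro j hj
      rw [hz _ _ _ j hj]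
      split_ifs
      · exact S.one_mem
      · exact S.zero_mem
      · exact S.zero_mem
    · rw [hq1]; simp
  have m2 : r₂ ∈ S := by
    have := root_mem S hSr c hc1 p q (d - 1) hp hq hD hc _ ?_ ?_ (hv 0 1)
    · simpa using this
    · intro j hj
      rw [hz _ _ _ j hj]
      split_ifs
      · exact S.zero_mem
      · exact S.one_mem
      · exact S.zero_mem
    · rw [hp1, hq1]
      have : d - 1 ≠ 0 := by omega
      simp [this]
  set y : Fin (n + 2) → Polynomial (AlgebraicClosure (LDP.KK n d)) := fun j =>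
    if j.1 = 0 then Polynomial.C r₁ + Polynomial.C r₂ * Polynomial.X else if j.1 = 1 then 1 else
      if j.1 = 2 then Polynomial.X else 0 with hy
  have hyl : ∀ j, y j ∈ Polynomial.lifts S.subtype := by
    intro j
    simp only [hy]
    split_ifs
    · exact Subsemiring.add_mem _ (C_lifts m1) (Subsemiring.mul_mem _ (C_lifts m2) (X_lifts S))
    · exact Subsemiring.one_mem _
    · exact X_lifts S
    · exact Subsemiring.zero_mem _
  obtain ⟨r, hr', hs⟩ := split S c _ p q (d - 1) hD hc y hyl
  have hg : ∑ m ∈ (Finset.univ : Finset (Fin (n + 2))).finsuppAntidiag d,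
      Polynomial.C (c m) * ∏ j, y j ^ m j = 0 := by
    refine Polynomial.funext fun u => ?_
    rw [Polynomial.eval_zero, ← hv 1 u, Polynomial.eval_finsetSum]
    refine Finset.sum_congr rfl fun m _ => ?_
    rw [Polynomial.eval_mul, Polynomial.eval_C, Polynomial.eval_prod]
    congr 1
    refine Finset.prod_congr rfl fun j _ => ?_
    rw [Polynomial.eval_pow]
    congr 1
    simp only [hy]
    split_ifs
    · simp
    · simp
    · simp
    · simp
  have yp : y p = 1 := by
    simp only [hy, hp1]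
    simp
  have yq : y q = Polynomial.X := by
    simp only [hy, hq1]
    simp
  rw [hg, yp, yq, one_pow, one_mul] at hs
  have h5 := congrArg (fun P => Polynomial.coeff P 1) hs
  simp only [Polynomial.coeff_zero, Polynomial.coeff_add, Polynomial.coeff_C_mul,
    Polynomial.coeff_X_one, mul_one] at h5
  apply hci
  have h6 : c (Finsupp.single p (d - 1) + Finsupp.single q 1) = - r.coeff 1 := by
    linear_combination -h5
  rw [h6]
  exact S.neg_mem (lifts_coeff hr' 1)

end Pool.Agent.DQ2.H3
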